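import Mathlib

set_option autoImplicit false

namespace Pool.Agent.Results.MP_d92cd9_co.EvenZero

open Finset
open scoped Classical

variable {n : ℕ}

/-- `b` is a non-minority ball: at least `n/2` balls have its colour. -/
def NonMin (c : Fin n → Bool) (b : Fin n) : Prop :=
  n ≤ 2 * (univ.filter (fun a => c a = c b)).card

/-- `a` is a valid answer to the query `T` under the colouring `c`. -/
def Valid (c : Fin n → Bool) (T : Finset (Fin n)) (a : Fin n) : Prop :=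
  a ∈ T ∧ ∃ a' ∈ T, a' ≠ a ∧ c a' = c a

/-- The query set `Q` determines a non-minority ball. -/
def Determines (Q : Finset (Finset (Fin n))) : Prop :=
  ∃ f : (Q → Fin n) → Fin n, ∀ (c : Fin n → Bool) (α : Q → Fin n),
    (∀ T : Q, Valid c T.1 (α T)) → NonMin c (f α)

/-- Co-degree. -/
def codeg (Q : Finset (Finset (Fin n))) (x y : Fin n) : ℕ :=
  (Q.filter (fun T => x ∈ T ∧ y ∈ T)).card

/-- Minimum co-degree. -/
noncomputable def delta2 (Q : Finset (Finset (Fin n))) : ℕ :=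
  sInf {d : ℕ | ∃ x y : Fin n, x ≠ y ∧ d = codeg Q x y}

/-- `m(n)`. -/
noncomputable def mm (n : ℕ) : ℕ :=
  sInf {d : ℕ | ∃ Q : Finset (Finset (Fin n)), (∀ T ∈ Q, T.card = 3) ∧ Determines Q ∧ d = delta2 Q}

lemma comb (x y : Fin n) (F : Finset (Finset (Fin n)))
    (P1 : ∀ b, ∃ M ∈ F, b ∈ M) (P2 : ∀ M ∈ F, 2 * M.card + 2 ≤ n)
    (P3 : ∀ A ∈ F, ∀ B ∈ F, ∀ C ∈ F, ∀ a b w, a ∈ A → a ∉ B → a ∉ C → b ∈ B → b ∉ A → b ∉ C →
      w ∈ C → w ∉ A → w ∉ B → (x = a ∨ x = b ∨ x = w) ∧ (y = a ∨ y = b ∨ y = w))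
    (hxy : x ≠ y) : False := by
  obtain ⟨M0, hM0, -⟩ := P1 x
  obtain ⟨⟨A0, B0⟩, h0, hmax0⟩ := exists_max_image (F ×ˢ F) (fun p => (p.1 ∪ p.2).card)
    ⟨(M0, M0), mem_product.2 ⟨hM0, hM0⟩⟩
  obtain ⟨N, hN⟩ : ∃ N, N = (A0 ∪ B0).card := ⟨_, rfl⟩
  have hmax : ∀ A ∈ F, ∀ B ∈ F, (A ∪ B).card ≤ N := fun A hA B hB =>
    hN ▸ hmax0 (A, B) (mem_product.2 ⟨hA, hB⟩)
  have miss : ∀ A ∈ F, ∀ B ∈ F, ∀ C ∈ F, (A ∪ B).card = N → ∀ w, w ∈ C → w ∉ A → w ∉ B →
      ∃ b, b ∈ B ∧ b ∉ A ∧ b ∉ C := by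
    intro A hA B hB C hC hc w w1 w2 w3
    by_contra hno
    push Not at hno
    have hs : insert w (A ∪ B) ⊆ A ∪ C := by
      intro z hz
      rcases mem_insert.1 hz with rfl | hz
      · exact mem_union_right _ w1
      · by_cases hzA : z ∈ A
        · exact mem_union_left _ hzA
        · exact mem_union_right _ (hno z ((mem_union.1 hz).resolve_left hzA) hzA)
    have h1 := card_le_card hs
    rw [card_insert_of_notMem (by simp [w2, w3])] at h1
    have := hmax A hA C hC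
    omega
  have out : ∀ A ∈ F, ∀ B ∈ F, ∀ z : Fin n, ∃ w, w ≠ z ∧ w ∉ A ∧ w ∉ B := by
    intro A hA B hB z
    by_contra hno
    push Not at hno
    have hs : (univ : Finset (Fin n)) ⊆ insert z (A ∪ B) := by
      intro u _
      by_cases h1 : u = z
      · rw [h1]; exact mem_insert_self _ _
      · by_cases h2 : u ∈ A
        · exact mem_insert_of_mem (mem_union_left _ h2)
        · exact mem_insert_of_mem (mem_union_right _ (hno u h1 h2))
    have h1 := card_le_card hs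
    have h2 := card_insert_le z (A ∪ B)
    have h3 := card_union_le A B
    have h4 := P2 A hA
    have h5 := P2 B hB
    rw [card_univ, Fintype.card_fin] at h1
    omega
  have trip : ∀ A ∈ F, ∀ B ∈ F, ∀ C ∈ F, (A ∪ B).card = N → ∀ w, w ∈ C → w ∉ A → w ∉ B →
      ∃ a b, a ∈ A ∧ a ∉ B ∧ a ∉ C ∧ b ∈ B ∧ b ∉ A ∧ b ∉ C := by
    intro A hA B hB C hC hc w w1 w2 w3
    obtain ⟨b, b1, b2, b3⟩ := miss A hA B hB C hC hc w w1 w2 w3
    obtain ⟨a, a1, a2, a3⟩ := miss B hB A hA C hC (by rw [union_comm]; exact hc) w w1 w3 w2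
    exact ⟨a, b, a1, a2, a3, b1, b2, b3⟩
  have both : ∀ A ∈ F, ∀ B ∈ F, (A ∪ B).card = N → ∀ z, (z = x ∨ z = y) → z ∈ A ∨ z ∈ B := by
    intro A hA B hB hc z hz
    obtain ⟨w, w0, w2, w3⟩ := out A hA B hB z
    obtain ⟨C, hC, w1⟩ := P1 w
    obtain ⟨a, b, a1, a2, a3, b1, b2, b3⟩ := trip A hA B hB C hC hc w w1 w2 w3
    obtain ⟨hx, hy⟩ := P3 A hA B hB C hC a b w a1 a2 a3 b1 b2 b3 w1 w2 w3
    have : z = a ∨ z = b ∨ z = w := by rcases hz with rfl | rfl <;> assumption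
    rcases this with rfl | rfl | h
    · exact Or.inl a1
    · exact Or.inr b1
    · exact absurd h.symm w0
  obtain ⟨hA, hB⟩ := mem_product.1 h0
  obtain ⟨w, -, w2, w3⟩ := out A0 hA B0 hB x
  obtain ⟨C, hC, w1⟩ := P1 w
  obtain ⟨a, b, a1, a2, a3, b1, b2, b3⟩ := trip A0 hA B0 hB C hC hN.symm w w1 w2 w3
  have hxw : x ≠ w := by
    rintro rfl
    rcases both A0 hA B0 hB hN.symm x (Or.inl rfl) with h | h <;> contradiction
  have hyw : y ≠ w := by
    rintro rfl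
    rcases both A0 hA B0 hB hN.symm y (Or.inr rfl) with h | h <;> contradiction
  have key : ∀ b', b' ∈ B0 → b' ∉ A0 → b' ∉ C → (x = a ∧ y = b') ∨ (x = b' ∧ y = a) := by
    intro b' c1 c2 c3
    obtain ⟨hx, hy⟩ := P3 A0 hA B0 hB C hC a b' w a1 a2 a3 c1 c2 c3 w1 w2 w3
    rcases hx with hx | hx | hx <;> rcases hy with hy | hy | hy
    all_goals first
      | exact absurd hx hxw
      | exact absurd hy hyw
      | exact absurd (hx.trans hy.symm) hxy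
      | exact Or.inl ⟨hx, hy⟩
      | exact Or.inr ⟨hx, hy⟩
  have uniq : ∀ b', b' ∈ B0 → b' ∉ A0 → b' ∉ C → b' = b := by
    intro b' c1 c2 c3
    rcases key b b1 b2 b3 with ⟨h1, h2⟩ | ⟨h1, h2⟩ <;> rcases key b' c1 c2 c3 with ⟨h3, h4⟩ | ⟨h3, h4⟩
    · exact h4.symm.trans h2
    · exact absurd (h1.trans h4.symm) hxy
    · exact absurd (h3.trans h2.symm) hxy
    · exact h3.symm.trans h1
  have hs : insert w ((A0 ∪ B0).erase b) ⊆ A0 ∪ C := by
    intro z hz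
    rcases mem_insert.1 hz with rfl | hz
    · exact mem_union_right _ w1
    · obtain ⟨z1, z2⟩ := mem_erase.1 hz
      by_cases hzA : z ∈ A0
      · exact mem_union_left _ hzA
      · by_contra hzz
        exact z1 (uniq z ((mem_union.1 z2).resolve_left hzA) hzA
          (fun h => hzz (mem_union_right _ h)))
  have h1 := card_le_card hs
  rw [card_insert_of_notMem (by simp [w2, w3]), card_erase_add_one (mem_union_right _ b1)] at h1
  have h2 : (A0 ∪ C).card = N := le_antisymm (hmax A0 hA C hC) (hN ▸ h1)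
  have h3 : b = x ∨ b = y := by
    rcases key b b1 b2 b3 with ⟨-, h⟩ | ⟨h, -⟩
    · exact Or.inr h.symm
    · exact Or.inl h.symm
  rcases both A0 hA C hC h2 b h3 with h | h <;> contradiction

lemma det (hn : Even n) (x y : Fin n) (hxy : x ≠ y) :
    Determines ((powersetCard 3 (univ : Finset (Fin n))).filter (fun T => ¬ (x ∈ T ∧ y ∈ T))) := by
  obtain ⟨Q, hQ⟩ : ∃ Q, Q = (powersetCard 3 (univ : Finset (Fin n))).filter
    (fun T => ¬ (x ∈ T ∧ y ∈ T)) := ⟨_, rfl⟩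
  rw [← hQ]
  suffices h : ∀ α : Q → Fin n, ∃ b, ∀ c : Fin n → Bool,
      (∀ T : Q, Valid c T.1 (α T)) → NonMin c b by
    choose f hf using h
    exact ⟨f, fun c α => hf α c⟩
  intro α
  by_contra hno
  push Not at hno
  refine comb x y (univ.filter (fun M : Finset (Fin n) => 2 * M.card < n ∧ ∃ (c : Fin n → Bool) (b : Fin n),
    (∀ T : Q, Valid c T.1 (α T)) ∧ M = univ.filter (fun a => c a = c b))) ?_ ?_ ?_ hxy
  · intro b
    obtain ⟨c, hc, hb⟩ := hno b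
    exact ⟨_, mem_filter.2 ⟨mem_univ _, not_le.1 hb, c, b, hc, rfl⟩, by simp⟩
  · intro M hM
    have := (mem_filter.1 hM).2.1
    obtain ⟨k, hk⟩ := hn
    omega
  · intro A hA B hB C hC a b w a1 a2 a3 b1 b2 b3 w1 w2 w3
    by_contra hcon
    have hab : a ≠ b := fun h => b2 (h ▸ a1)
    have haw : a ≠ w := fun h => w2 (h ▸ a1)
    have hbw : b ≠ w := fun h => w3 (h ▸ b1)
    have hT : ({a, b, w} : Finset (Fin n)) ∈ Q := by
      rw [hQ]
      refine mem_filter.2 ⟨mem_powersetCard.2 ⟨subset_univ _, card_eq_three.2 ⟨a, b, w, hab, haw, hbw, rfl⟩⟩, ?_⟩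
      simpa using hcon
    have odd : ∀ M ∈ univ.filter (fun M : Finset (Fin n) => 2 * M.card < n ∧ ∃ (c : Fin n → Bool) (b : Fin n),
        (∀ T : Q, Valid c T.1 (α T)) ∧ M = univ.filter (fun a => c a = c b)),
        α ⟨_, hT⟩ ∈ M → ∃ a' ∈ ({a, b, w} : Finset (Fin n)), a' ≠ α ⟨_, hT⟩ ∧ a' ∈ M := by
      intro M hM h
      obtain ⟨-, c, b0, hc, rfl⟩ := (mem_filter.1 hM).2
      obtain ⟨-, a', h1, h2, h3⟩ := hc ⟨_, hT⟩
      exact ⟨a', h1, h2, mem_filter.2 ⟨mem_univ _, h3.trans (mem_filter.1 h).2⟩⟩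
    obtain ⟨-, c, b0, hc, -⟩ := (mem_filter.1 hA).2
    have hmem : α ⟨_, hT⟩ ∈ ({a, b, w} : Finset (Fin n)) := (hc ⟨_, hT⟩).1
    simp only [mem_insert, mem_singleton] at hmem odd
    rcases hmem with h | h | h
    · obtain ⟨a', h1, h2, h3⟩ := odd A hA (by rw [h]; exact a1)
      rw [h] at h2
      rcases h1 with rfl | rfl | rfl <;> contradiction
    · obtain ⟨a', h1, h2, h3⟩ := odd B hB (by rw [h]; exact b1)
      rw [h] at h2
      rcases h1 with rfl | rfl | rfl <;> contradiction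
    · obtain ⟨a', h1, h2, h3⟩ := odd C hC (by rw [h]; exact w1)
      rw [h] at h2
      rcases h1 with rfl | rfl | rfl <;> contradiction

lemma ex (n : ℕ) (hn : Even n) (h4 : 4 ≤ n) : ∃ Q : Finset (Finset (Fin n)),
    (∀ T ∈ Q, T.card = 3) ∧ Determines Q ∧ ∃ x y : Fin n, x ≠ y ∧ codeg Q x y = 0 := by
  have hxy : (⟨0, by omega⟩ : Fin n) ≠ ⟨1, by omega⟩ := by simp
  refine ⟨_, fun T hT => (mem_powersetCard.1 (mem_filter.1 hT).1).2, det hn _ _ hxy, _, _, hxy, ?_⟩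
  unfold codeg
  rw [card_eq_zero, filter_eq_empty_iff]
  intro T hT
  exact (mem_filter.1 hT).2

lemma mm0 (n : ℕ) (hn : Even n) (h4 : 4 ≤ n) : mm n = 0 := by
  obtain ⟨Q, h1, h2, x, y, hxy, h3⟩ := ex n hn h4
  have h5 : delta2 Q = 0 := Nat.eq_zero_of_le_zero (Nat.sInf_le ⟨x, y, hxy, h3.symm⟩)
  exact Nat.eq_zero_of_le_zero (Nat.sInf_le ⟨Q, h1, h2, h5.symm⟩)

theorem result :
    (∀ n : ℕ, Even n → 4 ≤ n → (∃ Q : Finset (Finset (Fin n)),
      (∀ T ∈ Q, T.card = 3) ∧ Determines Q ∧ ∃ x y : Fin n, x ≠ y ∧ codeg Q x y = 0) ∧ mm n = 0) ∧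
    ¬ ∃ C : ℝ, ∀ n : ℕ, 3 ≤ n → |(mm n : ℝ) - (n : ℝ) / 2| ≤ C := by
  refine ⟨fun n hn h4 => ⟨ex n hn h4, mm0 n hn h4⟩, ?_⟩
  rintro ⟨C, hC⟩
  obtain ⟨k, hk⟩ := exists_nat_gt C
  have h := hC (2 * (k + 2)) (by omega)
  rw [mm0 _ (even_two_mul _) (by omega)] at h
  have h2 := (abs_le.1 h).1
  push_cast at h2
  linarith

end Pool.Agent.Results.MP_d92cd9_co.EvenZero
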